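import Pool.Agent.H98.SD.Targets
import Pool.Agent.H45.NF.PA

/-!
# Row ODX of the board sd2 (MP_e37c09_lc): sets which are definable from `x` and ordinals are
sections (helper49)
-/

open Ordinal Cardinal Order Set
open scoped ZFSet

universe u

namespace Pool.Agent.H49.SD

open _root_.HD _root_.HD.SD
open _root_.HD.NF (w0)

/-- a definable predicate of `x` and of the elements of `Z` is a section of an ordinal definable
set -/
theorem sec_aux {Q : (ℕ → ZFSet.{u}) → Prop} (hQ : DZ Q) (x Z : ZFSet.{u}) :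
    ∃ R, OD R ∧ ∀ z ∈ Z, (ZFSet.pair x z ∈ R ↔ Q (cons z fun _ => x)) := by
  refine ⟨ZFSet.sep (fun w => ∃ p' z, w = ZFSet.pair p' z ∧ Q (cons z fun _ => p'))
    (V_ ((ZFSet.prod {x} Z).rank)), Pool.Agent.H45.NF.od_sep (HD.NF.od_V _) ?_, fun z hz => ?_⟩
  · refine DZ.ex (R := fun p' v => ∃ z, v 0 = ZFSet.pair p' z ∧ Q (cons z fun _ => p'))
      (DZ.ex ((loc_pair 2 1 0).dz.and ?_))
    refine (hQ.ren fun n => if n = 0 then 0 else 1).congr fun v => ?_
    have : (cons (v 0) fun _ => v 1) = fun n => v (if n = 0 then 0 else 1) := by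
      funext n
      rcases n with _ | n <;> simp
    rw [← this]
  · rw [ZFSet.mem_sep]
    constructor
    · rintro ⟨-, p', z', he, h⟩
      obtain ⟨rfl, rfl⟩ := ZFSet.pair_injective he
      exact h
    · intro h
      refine ⟨?_, x, z, rfl, h⟩
      rw [ZFSet.mem_vonNeumann]
      exact ZFSet.rank_lt_of_mem (ZFSet.pair_mem_prod.2 ⟨ZFSet.mem_singleton.2 rfl, hz⟩)

theorem pf_ODX : T_ODX.{u} := by
  intro en hen x κ
  refine ⟨fun c => ?_, fun A hA => ?_, fun F hF => ?_, fun F hF => ?_⟩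
  · refine Pool.Agent.H45.NF.ODp.of_dz
      (Q := fun v => ∀ z, z ∈ v 0 ↔ (z ∈ κ.toZFSet ∧ ZFSet.pair (v 1) z ∈ en c))
      (DZ.all (DZ.iff (DZ.mem 0 1) (DZ.and ?_ ?_))) fun y => ?_
    · exact DZ.od (R := fun r v => v 0 ∈ r) (OD.ordinal κ) (DZ.mem 1 0)
    · exact DZ.od (R := fun r v => ZFSet.pair (v 2) (v 0) ∈ r) ((hen.od _).2 ⟨c, rfl⟩)
        (loc_pmem 3 1 0).dz
    · show (∀ z, z ∈ y ↔ (z ∈ κ.toZFSet ∧ ZFSet.pair x z ∈ en c)) ↔ y = os κ (Sc en x c)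
      have key : ∀ z, z ∈ os κ (Sc en x c) ↔ (z ∈ κ.toZFSet ∧ ZFSet.pair x z ∈ en c) := by
        intro z
        rw [mem_os]
        constructor
        · rintro ⟨a, ha, h, rfl⟩
          exact ⟨toZFSet_mem_toZFSet_iff.2 ha, h⟩
        · rintro ⟨h1, h2⟩
          obtain ⟨a, ha, rfl⟩ := mem_toZFSet_iff.1 h1
          exact ⟨a, ha, h2, rfl⟩
      constructor
      · intro h1
        ext z
        rw [h1 z, key z]
      · rintro rfl z
        exact key z
  · obtain ⟨Q, hQ, h⟩ := Pool.Agent.H45.NF.ODp.def hA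
    have hQ' : DZ fun v : ℕ → ZFSet.{u} => ∃ A', Q (cons A' fun _ => v 1) ∧ v 0 ∈ A' := by
      refine DZ.ex (R := fun A' v => Q (cons A' fun _ => v 1) ∧ v 0 ∈ A')
        (DZ.and ?_ (DZ.mem 1 0))
      refine (hQ.ren fun n => if n = 0 then 0 else 2).congr fun v => ?_
      have : (cons (v 0) fun _ => v 2) = fun n => v (if n = 0 then 0 else 2) := by
        funext n
        rcases n with _ | n <;> simp
      rw [← this]
    obtain ⟨R, hR, h1⟩ := sec_aux hQ' x κ.toZFSet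
    obtain ⟨c, hc⟩ := (hen.od R).1 hR
    refine ⟨c, fun b hb => ?_⟩
    have h2 := h1 b.toZFSet (toZFSet_mem_toZFSet_iff.2 hb)
    show ZFSet.pair x b.toZFSet ∈ en c ↔ _
    rw [hc, h2]
    constructor
    · rintro ⟨A', h3, h4⟩
      have h5 : A' = A := (h A').1 h3
      rw [← h5]
      exact h4
    · intro h3
      exact ⟨A, (h A).2 rfl, h3⟩
  · obtain ⟨Q, hQ, h⟩ := Pool.Agent.H45.NF.ODp.def hF
    have hQ' : DZ fun v : ℕ → ZFSet.{u} => ∃ F', Q (cons F' fun _ => v 1) ∧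
        ∃ b a, v 0 = ZFSet.pair b a ∧ ZFSet.pair a b ∈ F' := by
      refine DZ.ex (R := fun F' v => Q (cons F' fun _ => v 1) ∧
        ∃ b a, v 0 = ZFSet.pair b a ∧ ZFSet.pair a b ∈ F') (DZ.and ?_ ?_)
      · refine (hQ.ren fun n => if n = 0 then 0 else 2).congr fun v => ?_
        have : (cons (v 0) fun _ => v 2) = fun n => v (if n = 0 then 0 else 2) := by
          funext n
          rcases n with _ | n <;> simp
        rw [← this]
      · exact DZ.ex (R := fun b v => ∃ a, v 1 = ZFSet.pair b a ∧ ZFSet.pair a b ∈ v 0)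
          (DZ.ex ((loc_pair 3 1 0).dz.and (loc_pmem 0 1 2).dz))
    obtain ⟨R, hR, h1⟩ := sec_aux hQ' x (ZFSet.prod κ.toZFSet κ.toZFSet)
    obtain ⟨c, hc⟩ := (hen.od R).1 hR
    refine ⟨c, fun b hb a ha => ?_⟩
    have h2 := h1 (ZFSet.pair b.toZFSet a.toZFSet) (ZFSet.pair_mem_prod.2
      ⟨toZFSet_mem_toZFSet_iff.2 hb, toZFSet_mem_toZFSet_iff.2 ha⟩)
    show ZFSet.pair x (ZFSet.pair b.toZFSet a.toZFSet) ∈ en c ↔ _
    rw [hc, h2]
    constructor
    · rintro ⟨F', h3, b', a', h4, h6⟩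
      have h5 : F' = F := (h F').1 h3
      obtain ⟨rfl, rfl⟩ := ZFSet.pair_injective h4
      rw [← h5]
      exact h6
    · intro h3
      exact ⟨F, (h F).2 rfl, _, _, rfl, h3⟩
  · obtain ⟨Q, hQ, h⟩ := Pool.Agent.H45.NF.ODp.def hF
    have hQ' : DZ fun v : ℕ → ZFSet.{u} => ∃ F', Q (cons F' fun _ => v 1) ∧
        ∃ b a, v 0 = ZFSet.pair b a ∧ ∃ z, ZFSet.pair a z ∈ F' ∧ b ∈ z := by
      refine DZ.ex (R := fun F' v => Q (cons F' fun _ => v 1) ∧
        ∃ b a, v 0 = ZFSet.pair b a ∧ ∃ z, ZFSet.pair a z ∈ F' ∧ b ∈ z) (DZ.and ?_ ?_)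
      · refine (hQ.ren fun n => if n = 0 then 0 else 2).congr fun v => ?_
        have : (cons (v 0) fun _ => v 2) = fun n => v (if n = 0 then 0 else 2) := by
          funext n
          rcases n with _ | n <;> simp
        rw [← this]
      · exact DZ.ex (R := fun b v => ∃ a, v 1 = ZFSet.pair b a ∧
            ∃ z, ZFSet.pair a z ∈ v 0 ∧ b ∈ z)
          (DZ.ex ((loc_pair 3 1 0).dz.and (DZ.ex ((loc_pmem 1 0 3).dz.and (DZ.mem 2 0)))))
    obtain ⟨R, hR, h1⟩ := sec_aux hQ' x (ZFSet.prod κ.toZFSet κ.toZFSet)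
    obtain ⟨c, hc⟩ := (hen.od R).1 hR
    refine ⟨c, fun b hb a ha => ?_⟩
    have h2 := h1 (ZFSet.pair b.toZFSet a.toZFSet) (ZFSet.pair_mem_prod.2
      ⟨toZFSet_mem_toZFSet_iff.2 hb, toZFSet_mem_toZFSet_iff.2 ha⟩)
    show ZFSet.pair x (ZFSet.pair b.toZFSet a.toZFSet) ∈ en c ↔ _
    rw [hc, h2]
    constructor
    · rintro ⟨F', h3, b', a', h4, z, h6, h7⟩
      have h5 : F' = F := (h F').1 h3
      obtain ⟨rfl, rfl⟩ := ZFSet.pair_injective h4
      rw [← h5]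
      exact ⟨z, h6, h7⟩
    · rintro ⟨z, h3, h4⟩
      exact ⟨F, (h F).2 rfl, _, _, rfl, z, h3, h4⟩

end Pool.Agent.H49.SD
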